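import Mathlib

set_option autoImplicit false

open MeasureTheory Filter Topology Set
open scoped ENNReal NNReal ZeroAtInfty

namespace Pool.Agent.H.MP_c0175c_an

/-- uniform absolute continuity -/
theorem unif_ac {α E : Type*} [MeasurableSpace α] [NormedAddCommGroup E]
    (ν : VectorMeasure α E) (μ : Measure α)
    (h0 : ∀ s, MeasurableSet s → μ s = 0 → ν s = 0) {δ : ℝ} (hδ : 0 < δ) :
    ∃ η : ℝ≥0∞, 0 < η ∧ ∀ s, MeasurableSet s → μ s ≤ η → ‖ν s‖ ≤ δ := by
  by_contra hcon
  push Not at hcon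
  have hk : ∀ k : ℕ, ∃ s, MeasurableSet s ∧ μ s ≤ (2⁻¹ : ℝ≥0∞) ^ k ∧ δ < ‖ν s‖ := fun k =>
    hcon _ (ENNReal.pow_pos (by simp) k)
  choose s hsm hsμ hsν using hk
  set B : ℕ → Set α := fun k => ⋃ j, ⋃ (_ : k ≤ j), s j with hB
  have hBm : ∀ k, MeasurableSet (B k) := fun k =>
    MeasurableSet.iUnion fun j => MeasurableSet.iUnion fun _ => hsm j
  have hBa : Antitone B := fun a b hab x hx => by
    simp only [hB, mem_iUnion] at hx ⊢
    obtain ⟨j, hj, hx⟩ := hx
    exact ⟨j, hab.trans hj, hx⟩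
  have hsum : ∑' k, μ (s k) ≠ ∞ := by
    refine ne_top_of_le_ne_top ?_ (ENNReal.tsum_le_tsum hsμ)
    rw [ENNReal.tsum_geometric]
    simp
  have hnull : μ (⋂ k, B k) = 0 := by
    have := measure_limsup_atTop_eq_zero hsum
    rw [limsup_eq_iInf_iSup_of_nat] at this
    simpa [hB] using this
  have hstep : ∀ k, ∃ j, k < j ∧ δ / 2 ≤ ‖ν (s k \ B j)‖ := by
    intro k
    have h1 : Tendsto (fun j => ν (s k ∩ B j)) atTop (𝓝 (ν (⋂ j, s k ∩ B j))) :=
      VectorMeasure.tendsto_vectorMeasure_iInter_atTop_nat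
        (fun a b hab => inter_subset_inter_right _ (hBa hab)) (fun j => (hsm k).inter (hBm j))
    have h2 : ν (⋂ j, s k ∩ B j) = 0 := by
      refine h0 _ (MeasurableSet.iInter fun j => (hsm k).inter (hBm j)) ?_
      exact measure_mono_null (iInter_mono fun j => inter_subset_right) hnull
    rw [h2] at h1
    have h3 := (tendsto_order.1 h1.norm).2 (δ / 2) (by simpa using hδ)
    obtain ⟨j, hj, hj'⟩ := (h3.and (eventually_gt_atTop k)).exists
    refine ⟨j, hj', ?_⟩
    have h4 : ν (s k) = ν (s k ∩ B j) + ν (s k \ B j) := by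
      rw [← VectorMeasure.of_union (disjoint_sdiff_right.mono_left inter_subset_right)
        ((hsm k).inter (hBm j)) ((hsm k).diff (hBm j)), inter_union_diff]
    have h5 := hsν k
    rw [h4] at h5
    have h6 := norm_add_le (ν (s k ∩ B j)) (ν (s k \ B j))
    linarith
  choose J hJ hJν using hstep
  set k : ℕ → ℕ := fun i => J^[i] 0 with hk
  have hks : ∀ i, k (i + 1) = J (k i) := fun i => by
    simp only [hk, Function.iterate_succ', Function.comp_apply]
  have hkm : StrictMono k := strictMono_nat_of_lt_succ fun i => by rw [hks]; exact hJ _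
  set u : ℕ → Set α := fun i => s (k i) \ B (k (i + 1)) with hu
  have hd : Pairwise (Function.onFun Disjoint u) := by
    apply (pairwise_disjoint_on _).2 (fun m n hmn ↦ ?_)
    refine Set.disjoint_left.2 fun x hx hx' => hx.2 ?_
    simp only [hB, mem_iUnion]
    exact ⟨k n, hkm.monotone hmn, hx'.1⟩
  have h7 := (VectorMeasure.hasSum_of_disjoint_iUnion (v := ν)
    (fun i => (hsm (k i)).diff (hBm (k (i + 1)))) hd).summable.tendsto_atTop_zero
  have h8 := (tendsto_order.1 h7.norm).2 (δ / 2) (by simpa using hδ)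
  obtain ⟨i, hi⟩ := h8.exists
  have := hJν (k i)
  rw [← hks] at this
  linarith

theorem greedy {H : Type*} [NormedAddCommGroup H] [InnerProductSpace ℝ H] (v : ℕ → H) (C : ℝ)
    (hv : ∀ j, ‖v j‖ ≤ C) (m : ℕ) :
    ∃ b : ℕ → Bool, ‖∑ j ∈ Finset.range m, (if b j then (1 : ℝ) else -1) • v j‖ ^ 2
      ≤ m * C ^ 2 := by
  induction m with
  | zero => exact ⟨fun _ => true, by simp⟩
  | succ m ih =>
    obtain ⟨b, hb⟩ := ih
    set S := ∑ j ∈ Finset.range m, (if b j then (1 : ℝ) else -1) • v j with hS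
    have hsum : ∀ c : Bool, ∑ j ∈ Finset.range (m + 1),
        (if (Function.update b m c) j then (1 : ℝ) else -1) • v j
        = S + (if c then (1 : ℝ) else -1) • v m := by
      intro c
      rw [Finset.sum_range_succ, Function.update_self]
      congr 1
      refine Finset.sum_congr rfl fun j hj => ?_
      rw [Function.update_of_ne (Finset.mem_range.1 hj).ne]
    have hvm : ‖v m‖ ^ 2 ≤ C ^ 2 := pow_le_pow_left₀ (norm_nonneg _) (hv m) 2
    by_cases h : inner ℝ S (v m) ≤ 0
    · refine ⟨Function.update b m true, ?_⟩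
      rw [hsum]
      simp only [if_true, one_smul]
      rw [norm_add_sq_real]
      push_cast
      linarith
    · refine ⟨Function.update b m false, ?_⟩
      rw [hsum]
      simp only [Bool.false_eq_true, if_false, neg_smul, one_smul, ← sub_eq_add_neg]
      rw [norm_sub_sq_real]
      push_cast
      linarith

noncomputable def e (n : ℕ) : C₀(ℕ, ℝ) where
  toFun := Pi.single n 1
  continuous_toFun := continuous_of_discreteTopology
  zero_at_infty' := by
    rw [cocompact_eq_cofinite, Nat.cofinite_eq_atTop]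
    refine tendsto_const_nhds.congr' ?_
    filter_upwards [eventually_gt_atTop n] with k hk
    rw [Pi.single_eq_of_ne hk.ne']

theorem e_apply (n k : ℕ) : e n k = if k = n then 1 else 0 := by
  change (Pi.single n (1 : ℝ) : ℕ → ℝ) k = _
  rw [Pi.single_apply]

noncomputable def ev (n : ℕ) : C₀(ℕ, ℝ) →L[ℝ] ℝ :=
  LinearMap.mkContinuous
    { toFun := fun f => f n
      map_add' := fun _ _ => rfl
      map_smul' := fun _ _ => rfl } 1 fun f => by
    rw [one_mul, ← ZeroAtInftyContinuousMap.norm_toBCF_eq_norm]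
    exact f.toBCF.norm_coe_le_norm n

theorem ev_apply (n : ℕ) (f : C₀(ℕ, ℝ)) : ev n f = f n := rfl

theorem abs_ev_le (n : ℕ) (f : C₀(ℕ, ℝ)) : |f n| ≤ ‖f‖ := by
  rw [← ZeroAtInftyContinuousMap.norm_toBCF_eq_norm]
  exact f.toBCF.norm_coe_le_norm n

theorem sum_apply' (F : Finset ℕ) (c : ℕ → ℝ) (k : ℕ) :
    (∑ n ∈ F, c n • e n) k = if k ∈ F then c k else 0 := by
  rw [← ev_apply, map_sum]
  simp only [map_smul, ev_apply, e_apply, smul_eq_mul, mul_ite, mul_one, mul_zero]
  rw [Finset.sum_ite_eq]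

theorem summable_dual (φ : C₀(ℕ, ℝ) →L[ℝ] ℝ) : Summable fun n => |φ (e n)| := by
  refine summable_of_sum_le (c := ‖φ‖) (fun n => abs_nonneg _) fun F => ?_
  have h1 : ∑ n ∈ F, |φ (e n)| = φ (∑ n ∈ F, (SignType.sign (φ (e n)) : ℝ) • e n) := by
    rw [map_sum]
    refine Finset.sum_congr rfl fun n _ => ?_
    rw [map_smul, smul_eq_mul, sign_mul_self]
  have h2 : ‖∑ n ∈ F, (SignType.sign (φ (e n)) : ℝ) • e n‖ ≤ 1 := by
    rw [← ZeroAtInftyContinuousMap.norm_toBCF_eq_norm]
    refine (BoundedContinuousFunction.norm_le zero_le_one).2 fun k => ?_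
    change |(∑ n ∈ F, (SignType.sign (φ (e n)) : ℝ) • e n) k| ≤ 1
    rw [sum_apply']
    split_ifs
    · rcases lt_trichotomy (φ (e k)) 0 with h | h | h <;> simp [h]
    · simp
  rw [h1]
  calc _ ≤ ‖φ‖ * ‖∑ n ∈ F, (SignType.sign (φ (e n)) : ℝ) • e n‖ :=
        (le_abs_self _).trans (φ.le_opNorm _)
    _ ≤ ‖φ‖ := mul_le_of_le_one_right φ.opNorm_nonneg h2

/-- sign vectors on the block from m to 2m -/
noncomputable def y (i : Σ m : ℕ, (Fin m → Bool)) : C₀(ℕ, ℝ) :=
  ∑ j : Fin i.1, (if i.2 j then (1 : ℝ) else -1) • e (j + i.1)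

theorem y_apply (m : ℕ) (b : Fin m → Bool) (j : Fin m) :
    y ⟨m, b⟩ (j + m) = if b j then (1 : ℝ) else -1 := by
  rw [← ev_apply, y, map_sum]
  simp only [map_smul, ev_apply, e_apply, smul_eq_mul, mul_ite, mul_one, mul_zero]
  rw [Finset.sum_eq_single j]
  · simp
  · intro k _ hk
    rw [if_neg]
    intro h
    exact hk (Fin.ext (by omega))
  · simp

theorem y_weak (φ : C₀(ℕ, ℝ) →L[ℝ] ℝ) : Tendsto (fun i => φ (y i)) cofinite (𝓝 0) := by
  have h1 : Tendsto (fun i : (Σ m : ℕ, (Fin m → Bool)) => i.1) cofinite atTop := by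
    rw [← Nat.cofinite_eq_atTop]
    refine Tendsto.cofinite_of_finite_preimage_singleton fun m => ?_
    refine Set.Finite.subset (Set.finite_range (fun b : Fin m → Bool =>
      (⟨m, b⟩ : Σ m : ℕ, (Fin m → Bool)))) ?_
    rintro ⟨m', b⟩ h
    obtain rfl : m' = m := h
    exact ⟨b, rfl⟩
  have h2 := (tendsto_sum_nat_add fun n => |φ (e n)|).comp h1
  refine squeeze_zero_norm (fun i => ?_) h2
  obtain ⟨m, b⟩ := i
  simp only [y, map_sum, Function.comp_apply]
  refine (norm_sum_le _ _).trans ?_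
  have h3 : ∀ j : Fin m, ‖φ ((if b j then (1 : ℝ) else -1) • e (j + m))‖ = |φ (e (j + m))| := by
    intro j
    rw [map_smul, norm_smul]
    split_ifs <;> simp
  simp only [h3]
  rw [Fin.sum_univ_eq_sum_range (fun j => |φ (e (j + m))|) m]
  exact ((summable_nat_add_iff m).2 (summable_dual φ)).sum_le_tsum _ fun _ _ => abs_nonneg _

theorem K_compact : IsCompact ((toWeakSpace ℝ C₀(ℕ, ℝ)) '' (insert 0 (range y))) := by
  have h : Tendsto (fun i => toWeakSpace ℝ C₀(ℕ, ℝ) (y i)) cofinite (𝓝 0) := by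
    refine (WeakBilin.tendsto_iff_forall_eval_tendsto (topDualPairing ℝ C₀(ℕ, ℝ)).flip ?_).2 ?_
    · intro a b hab
      refine (SeparatingDual.eq_iff_forall_dual_eq (R := ℝ)).2 fun g => ?_
      exact LinearMap.congr_fun hab g
    · intro φ
      have h := y_weak φ
      rw [← map_zero φ] at h
      exact h
  have := h.isCompact_insert_range_of_cofinite
  rw [image_insert_eq, map_zero, ← range_comp]
  exact this

theorem main {α : Type*} [MeasurableSpace α] (ν : VectorMeasure α C₀(ℕ, ℝ))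
    (hK : ∀ i, ∃ s, ν s = y i) : False := by
  set σ : ℕ → SignedMeasure α := fun n => ν.mapRange (ev n : C₀(ℕ, ℝ) →+ ℝ) (ev n).continuous
    with hσ
  have hσa : ∀ n s, σ n s = ν s n := fun n s => rfl
  set c : ℕ → ℝ≥0∞ := fun n => (2⁻¹ : ℝ≥0∞) ^ n * (1 + (σ n).totalVariation univ)⁻¹ with hc
  have hc0 : ∀ n, c n ≠ 0 := fun n => by
    refine mul_ne_zero (pow_ne_zero _ (by simp)) (ENNReal.inv_ne_zero.2 ?_)
    exact ENNReal.add_ne_top.2 ⟨by simp, measure_ne_top _ _⟩
  set μ : Measure α := Measure.sum fun n => c n • (σ n).totalVariation with hμ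
  haveI : IsFiniteMeasure μ := ⟨by
    rw [hμ, Measure.sum_apply _ MeasurableSet.univ]
    refine lt_of_le_of_lt (ENNReal.tsum_le_tsum (g := fun n => (2⁻¹ : ℝ≥0∞) ^ n) fun n => ?_) ?_
    · rw [Measure.smul_apply, smul_eq_mul, hc]
      simp only
      rw [mul_assoc]
      refine mul_le_of_le_one_right' ?_
      rw [mul_comm, ← div_eq_mul_inv]
      exact ENNReal.div_le_of_le_mul (by simp)
    · rw [ENNReal.tsum_geometric]
      simp⟩
  have hac : ∀ n s, MeasurableSet s → μ s = 0 → σ n s = 0 := by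
    intro n s hs h
    rw [hμ, Measure.sum_apply _ hs, ENNReal.tsum_eq_zero] at h
    have h1 := h n
    rw [Measure.smul_apply, smul_eq_mul, mul_eq_zero] at h1
    exact SignedMeasure.null_of_totalVariation_zero _ (h1.resolve_left (hc0 n))
  have hac' : ∀ s, MeasurableSet s → μ s = 0 → ν s = 0 := fun s hs h => by
    ext n
    exact hac n s hs h
  obtain ⟨η, hη, hην⟩ := unif_ac ν μ hac' (δ := 1 / 2) (by norm_num)
  have hrn : ∀ n, μ.withDensityᵥ ((σ n).rnDeriv μ) = σ n := fun n => by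
    refine SignedMeasure.withDensityᵥ_rnDeriv_eq _ _ ?_
    refine VectorMeasure.AbsolutelyContinuous.mk fun s hs h => hac n s hs ?_
    rwa [Measure.toENNRealVectorMeasure_apply_measurable hs] at h
  set g : ℕ → α → ℝ := fun n => (σ n).rnDeriv μ with hg
  have hgm : ∀ n, Measurable (g n) := fun n => SignedMeasure.measurable_rnDeriv _ _
  have hgi : ∀ n, Integrable (g n) μ := fun n => SignedMeasure.integrable_rnDeriv _ _
  have hgs : ∀ n s, MeasurableSet s → ∫ x in s, g n x ∂μ = ν s n := fun n s hs => by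
    rw [← hσa, ← hrn n, withDensityᵥ_apply (hgi n) hs]
  set C : ℝ := (ν.bound : ℝ) with hC
  have hC0 : 0 ≤ C := NNReal.coe_nonneg _
  have hCb : ∀ n s, |ν s n| ≤ C := fun n s => (abs_ev_le n _).trans ν.norm_apply_le_bound
  obtain ⟨r, hr0, hr⟩ : ∃ r : ℝ, 0 < r ∧ ENNReal.ofReal r ≤ η := by
    obtain ⟨r, h1, h2⟩ := ENNReal.lt_iff_exists_real_btwn.1 hη
    exact ⟨r, ENNReal.ofReal_pos.1 h2.1, h2.2.le⟩
  set M : ℝ := (2 * C + 1) / r with hM
  have hM0 : 0 < M := by positivity
  set A : ℕ → Set α := fun n => {x | M < g n x} ∪ {x | g n x < -M} with hA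
  have hAp : ∀ n, MeasurableSet {x | M < g n x} := fun n => measurableSet_lt measurable_const (hgm n)
  have hAn : ∀ n, MeasurableSet {x | g n x < -M} := fun n => measurableSet_lt (hgm n) measurable_const
  have hAm : ∀ n, MeasurableSet (A n) := fun n => (hAp n).union (hAn n)
  have hAμ : ∀ n, μ (A n) ≤ η := by
    intro n
    have h1 : M * μ.real {x | M < g n x} ≤ C := by
      refine le_trans ?_ ((le_abs_self _).trans (hCb n {x | M < g n x}))
      rw [← hgs n _ (hAp n), mul_comm, ← smul_eq_mul, ← setIntegral_const]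
      exact setIntegral_mono_on integrableOn_const (hgi n).integrableOn (hAp n)
        fun x hx => le_of_lt hx
    have h2 : M * μ.real {x | g n x < -M} ≤ C := by
      refine le_trans ?_ ((neg_le_abs _).trans (hCb n {x | g n x < -M}))
      rw [← hgs n _ (hAn n), mul_comm, ← smul_eq_mul, ← setIntegral_const, ← integral_neg]
      exact setIntegral_mono_on integrableOn_const (hgi n).neg.integrableOn (hAn n)
        fun x hx => by have : g n x < -M := hx; linarith
    have h3 : μ.real (A n) ≤ r := by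
      refine (measureReal_union_le _ _).trans ?_
      have : M * r = 2 * C + 1 := by rw [hM]; field_simp
      nlinarith
    refine le_trans ?_ hr
    rw [← ofReal_measureReal (measure_ne_top _ _)]
    exact ENNReal.ofReal_le_ofReal h3
  set h : ℕ → α → ℝ := fun n => (A n)ᶜ.indicator (g n) with hh
  have hhb : ∀ n x, ‖h n x‖ ≤ M := by
    intro n x
    by_cases hx : x ∈ A n
    · simp [hh, hx, hM0.le]
    · rw [hh]
      simp only
      rw [indicator_of_mem hx]
      simp only [hA, mem_union, mem_setOf_eq, not_or, not_lt] at hx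
      exact abs_le.2 ⟨hx.2, hx.1⟩
  have hhm : ∀ n, MemLp (h n) 2 μ := fun n =>
    MemLp.of_bound ((hgm n).indicator (hAm n).compl).aestronglyMeasurable M
      (Eventually.of_forall (hhb n))
  set w : ℝ := (measureUnivNNReal μ : ℝ) ^ (2 : ℝ≥0∞).toReal⁻¹ with hw
  have hw0 : 0 ≤ w := by positivity
  set v : ℕ → Lp ℝ 2 μ := fun n => (hhm n).toLp (h n) with hv
  have hvb : ∀ n, ‖v n‖ ≤ w * M := fun n => by
    refine Lp.norm_le_of_ae_bound hM0.le ?_
    filter_upwards [(hhm n).coeFn_toLp] with x hx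
    rw [hx]
    exact hhb n x
  obtain ⟨m, hm⟩ := exists_nat_gt (4 * (w ^ 2 * (w * M) ^ 2))
  obtain ⟨b, hb⟩ := greedy (fun j => v (j + m)) (w * M) (fun j => hvb _) m
  obtain ⟨s, hs⟩ := hK ⟨m, fun j => b j⟩
  have hm0 : (0 : ℝ) < m := lt_of_le_of_lt (by positivity) hm
  have hsm : MeasurableSet s := by
    by_contra hs'
    rw [ν.not_measurable hs'] at hs
    have := y_apply m (fun j => b j) ⟨0, by exact_mod_cast hm0⟩
    rw [← hs] at this
    simp only [ZeroAtInftyContinuousMap.zero_apply] at this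
    split_ifs at this <;> norm_num at this
  set I : Lp ℝ 2 μ := indicatorConstLp 2 hsm (measure_ne_top _ _) (1 : ℝ) with hI
  have hIb : ‖I‖ ≤ w * 1 := by
    refine Lp.norm_le_of_ae_bound zero_le_one ?_
    filter_upwards [indicatorConstLp_coeFn (p := 2) (hs := hsm) (hμs := measure_ne_top μ s)
      (c := (1 : ℝ))] with x hx
    rw [hI, hx]
    by_cases hx : x ∈ s <;> simp [hx]
  have hin : ∀ n, inner ℝ I (v n) = ν (s \ A n) n := by
    intro n
    rw [hI, L2.inner_indicatorConstLp_one, ← hgs n _ (hsm.diff (hAm n)),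
      setIntegral_congr_ae hsm (g := h n) (by
        filter_upwards [(hhm n).coeFn_toLp] with x hx _ using hx), hh]
    simp only
    rw [setIntegral_indicator (hAm n).compl, diff_eq]
  have hlow : ∀ j ∈ Finset.range m,
      (1 / 2 : ℝ) ≤ inner ℝ I ((if b j then (1 : ℝ) else -1) • v (j + m)) := by
    intro j hj
    have hj' := Finset.mem_range.1 hj
    have h1 := y_apply m (fun j => b j) ⟨j, hj'⟩
    rw [← hs] at h1
    simp only at h1
    have h4 : ν s = ν (s ∩ A (j + m)) + ν (s \ A (j + m)) := by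
      rw [← VectorMeasure.of_union (disjoint_sdiff_right.mono_left inter_subset_right)
        (hsm.inter (hAm _)) (hsm.diff (hAm _)), inter_union_diff]
    have h5 : |ν (s ∩ A (j + m)) (j + m)| ≤ 1 / 2 :=
      (abs_ev_le _ _).trans (hην _ (hsm.inter (hAm _))
        ((measure_mono inter_subset_right).trans (hAμ _)))
    rw [h4, ZeroAtInftyContinuousMap.add_apply] at h1
    rw [real_inner_smul_right, hin]
    have h6 := abs_le.1 h5
    split_ifs at h1 ⊢ <;> linarith [h6.1, h6.2]
  have h7 := Finset.sum_le_sum hlow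
  rw [← inner_sum, Finset.sum_const, Finset.card_range, nsmul_eq_mul] at h7
  set S := ∑ j ∈ Finset.range m, (if b j then (1 : ℝ) else -1) • v (j + m)
  have h8 : inner ℝ I S ≤ w * ‖S‖ :=
    (real_inner_le_norm _ _).trans (mul_le_mul_of_nonneg_right (by linarith) (norm_nonneg _))
  have h9 : ((m : ℝ) * (1 / 2)) ^ 2 ≤ (w * ‖S‖) ^ 2 :=
    pow_le_pow_left₀ (by positivity) (h7.trans h8) 2
  have h10 : (w * ‖S‖) ^ 2 ≤ w ^ 2 * (m * (w * M) ^ 2) := by
    rw [mul_pow]
    exact mul_le_mul_of_nonneg_left hb (sq_nonneg _)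
  nlinarith

end Pool.Agent.H.MP_c0175c_an
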